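import Mathlib

/-! Resolution refutations, their DAG structures and one-half-regularity.
A literal is a pair `(x, b)`: `(x, true)` is the variable `x` and `(x, false)` its negation.
A clause is a finite set of literals and a CNF formula a finite set of clauses. -/

namespace Pool.Agent.Lib.MP_71630c_lc

variable {V : Type} [DecidableEq V]

/-- `C` is obtained from `C₁ = A ∨ x` and `C₂ = B ∨ ¬x` by resolving on `x`, so `C = A ∨ B`. -/
def Resolves (C₁ C₂ C : Finset (V × Bool)) (x : V) : Prop :=
  ∃ A B : Finset (V × Bool), (x, true) ∉ A ∧ (x, false) ∉ B ∧
    C₁ = insert (x, true) A ∧ C₂ = insert (x, false) B ∧ C = A ∪ B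

/-- The sequence `C 0, …, C s` of `s + 1` clauses is a resolution refutation of `F`. -/
def IsRefutation (F : Finset (Finset (V × Bool))) (s : ℕ)
    (C : Fin (s + 1) → Finset (V × Bool)) : Prop :=
  C (Fin.last s) = ∅ ∧
    ∀ i, C i ∈ F ∨ ∃ j, j < i ∧ ∃ k, k < i ∧ ∃ x, Resolves (C j) (C k) (C i) x

/-- `w` is a DAG structure for the sequence `C`: a position is either a clause of `F` that is not
treated as derived, or is assigned two earlier positions and the variable resolved on. -/
def IsWitness (F : Finset (Finset (V × Bool))) (s : ℕ) (C : Fin (s + 1) → Finset (V × Bool))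
    (w : Fin (s + 1) → Option (Fin (s + 1) × Fin (s + 1) × V)) : Prop :=
  ∀ i, (w i = none → C i ∈ F) ∧
    ∀ j k x, w i = some (j, k, x) → j < i ∧ k < i ∧ Resolves (C j) (C k) (C i) x

/-- `IsPath w i l`: following premise edges of `w` from position `i` down to a non-derived
position, the successive inferences resolve on the variables listed in `l`. -/
inductive IsPath {I : Type} (w : I → Option (I × I × V)) : I → List V → Prop
  | leaf (i : I) : w i = none → IsPath w i []
  | left (i j k : I) (x : V) (l : List V) :
      w i = some (j, k, x) → IsPath w j l → IsPath w i (x :: l)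
  | right (i j k : I) (x : V) (l : List V) :
      w i = some (j, k, x) → IsPath w k l → IsPath w i (x :: l)

/-- A one-half-regular refutation: for some DAG structure, on every path from the final empty
clause at most half of the variables are resolved on more than once. -/
def IsHalfRegular [Fintype V] (F : Finset (Finset (V × Bool))) (s : ℕ)
    (C : Fin (s + 1) → Finset (V × Bool)) : Prop :=
  IsRefutation F s C ∧ ∃ w, IsWitness F s C w ∧ ∀ l, IsPath w (Fin.last s) l →
    2 * (Finset.univ.filter fun x : V => 2 ≤ l.count x).card ≤ Fintype.card V

end Pool.Agent.Lib.MP_71630c_lc
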