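import Mathlib
import Pool.Agent.Lib.MP_71630c_lc.Defs

-- part Pool.Agent.Lib.MP_71630c_lc.Derive
section

/-! Tools for building resolution derivations. -/

namespace Pool.Agent.Lib.MP_71630c_lc

open Finset

variable {V : Type} [DecidableEq V]

/-- The clause on the variables of `T` falsified by `a`. -/
def cl (T : Finset V) (a : V → Bool) : Finset (V × Bool) := T.image fun y => (y, !a y)

theorem mem_cl {T : Finset V} {a : V → Bool} {y : V} {b : Bool} :
    (y, b) ∈ cl T a ↔ y ∈ T ∧ b = !a y := by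
  simp only [cl, mem_image, Prod.mk.injEq]
  constructor
  · rintro ⟨z, hz, rfl, rfl⟩; exact ⟨hz, rfl⟩
  · rintro ⟨h, rfl⟩; exact ⟨y, h, rfl, rfl⟩

theorem cl_mono {T U : Finset V} (h : T ⊆ U) (a : V → Bool) : cl T a ⊆ cl U a :=
  image_subset_image h

theorem cl_congr {T : Finset V} {a a' : V → Bool} (h : ∀ y ∈ T, a y = a' y) : cl T a = cl T a' :=
  image_congr fun y hy => by rw [h y hy]

/-- A derivation: its length and its clauses. -/
def Valid (F : Finset (Finset (V × Bool))) (d : ℕ × (ℕ → Finset (V × Bool))) : Prop :=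
  ∀ i < d.1, d.2 i ∈ F ∨ ∃ j < i, ∃ k < i, ∃ x, Resolves (d.2 j) (d.2 k) (d.2 i) x

/-- The derivation contains a subclause of `D`. -/
def Has (d : ℕ × (ℕ → Finset (V × Bool))) (D : Finset (V × Bool)) : Prop :=
  ∃ i < d.1, d.2 i ⊆ D

/-- `d'` is valid, at most `k` longer than `d` and at least as strong. -/
def Ext (F : Finset (Finset (V × Bool))) (d d' : ℕ × (ℕ → Finset (V × Bool))) (k : ℕ) : Prop :=
  Valid F d' ∧ d'.1 ≤ d.1 + k ∧ ∀ D, Has d D → Has d' D

variable {F : Finset (Finset (V × Bool))} {d d' d'' : ℕ × (ℕ → Finset (V × Bool))}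

omit [DecidableEq V] in
theorem Has.mono {D D' : Finset (V × Bool)} (h : Has d D) (hD : D ⊆ D') : Has d D' := by
  obtain ⟨i, hi, h⟩ := h
  exact ⟨i, hi, h.trans hD⟩

theorem Ext.refl (h : Valid F d) (k : ℕ) : Ext F d d k := ⟨h, Nat.le_add_right _ _, fun _ h => h⟩

theorem Ext.trans {k k' : ℕ} (h : Ext F d d' k) (h' : Ext F d' d'' k') : Ext F d d'' (k + k') :=
  ⟨h'.1, by have := h.2.1; have := h'.2.1; omega, fun D hD => h'.2.2 D (h.2.2 D hD)⟩

theorem Ext.mono {k k' : ℕ} (h : Ext F d d' k) (hk : k ≤ k') : Ext F d d' k' :=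
  ⟨h.1, by have := h.2.1; omega, h.2.2⟩

theorem ext_push (hv : Valid F d) (D : Finset (V × Bool))
    (hD : D ∈ F ∨ ∃ j < d.1, ∃ k < d.1, ∃ x, Resolves (d.2 j) (d.2 k) D x) :
    ∃ d', Ext F d d' 1 ∧ Has d' D := by
  refine ⟨(d.1 + 1, Function.update d.2 d.1 D), ⟨?_, le_rfl, ?_⟩, d.1, Nat.lt_succ_self _, ?_⟩
  · intro i hi
    rcases Nat.lt_succ_iff_lt_or_eq.mp hi with h | h
    · simp only [Function.update_of_ne h.ne]
      rcases hv i h with h1 | ⟨j, hj, k, hk, x, hx⟩
      · exact Or.inl h1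
      · refine Or.inr ⟨j, hj, k, hk, x, ?_⟩
        rwa [Function.update_of_ne (by omega), Function.update_of_ne (by omega)]
    · subst h
      simp only [Function.update_self]
      rcases hD with h1 | ⟨j, hj, k, hk, x, hx⟩
      · exact Or.inl h1
      · refine Or.inr ⟨j, hj, k, hk, x, ?_⟩
        rwa [Function.update_of_ne (by omega), Function.update_of_ne (by omega)]
  · rintro E ⟨i, hi, h⟩
    exact ⟨i, Nat.lt_succ_of_lt hi, by simpa only [Function.update_of_ne hi.ne] using h⟩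
  · simp

theorem ext_resolve (hv : Valid F d) {D : Finset (V × Bool)} {x : V}
    (h1 : Has d (insert (x, true) D)) (h2 : Has d (insert (x, false) D)) :
    ∃ d', Ext F d d' 1 ∧ Has d' D := by
  obtain ⟨j, hj, h1⟩ := h1
  obtain ⟨k, hk, h2⟩ := h2
  by_cases a1 : (x, true) ∈ d.2 j
  · by_cases a2 : (x, false) ∈ d.2 k
    · obtain ⟨d', he, hh⟩ := ext_push hv ((d.2 j).erase (x, true) ∪ (d.2 k).erase (x, false))
        (Or.inr ⟨j, hj, k, hk, x, _, _, notMem_erase _ _, notMem_erase _ _,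
          (insert_erase a1).symm, (insert_erase a2).symm, rfl⟩)
      exact ⟨d', he, hh.mono (union_subset (subset_insert_iff.mp h1) (subset_insert_iff.mp h2))⟩
    · exact ⟨d, Ext.refl hv 1, k, hk, (subset_insert_iff_of_notMem a2).mp h2⟩
  · exact ⟨d, Ext.refl hv 1, j, hj, (subset_insert_iff_of_notMem a1).mp h1⟩

theorem ext_batch {ι : Type} [DecidableEq ι] (I : Finset ι) (D : ι → Finset (V × Bool)) (k : ℕ)
    (hv : Valid F d)
    (h : ∀ d', Valid F d' → (∀ E, Has d E → Has d' E) → ∀ i ∈ I,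
      ∃ d'', Ext F d' d'' k ∧ Has d'' (D i)) :
    ∃ d', Ext F d d' (I.card * k) ∧ ∀ i ∈ I, Has d' (D i) := by
  induction I using Finset.induction_on with
  | empty => exact ⟨d, Ext.refl hv _, by simp⟩
  | insert i I hi ih =>
    obtain ⟨d1, he1, hh1⟩ := ih fun d' hv' hm j hj => h d' hv' hm j (mem_insert_of_mem hj)
    obtain ⟨d2, he2, hh2⟩ := h d1 he1.1 he1.2.2 i (mem_insert_self _ _)
    refine ⟨d2, (he1.trans he2).mono (by rw [card_insert_of_notMem hi]; nlinarith), ?_⟩
    intro j hj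
    rcases mem_insert.mp hj with rfl | hj
    · exact hh2
    · exact he2.2.2 _ (hh1 j hj)

theorem ext_branch (U : Finset V) : ∀ (T : Finset V) (a : V → Bool)
    (d : ℕ × (ℕ → Finset (V × Bool))), Valid F d →
    (∀ a' : V → Bool, (∀ y ∈ T, a' y = a y) → Has d (cl (T ∪ U) a')) →
    ∃ d', Ext F d d' (2 ^ U.card - 1) ∧ Has d' (cl T a) := by
  induction U using Finset.induction_on with
  | empty =>
    intro T a d hv h
    exact ⟨d, Ext.refl hv _, by simpa using h a fun _ _ => rfl⟩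
  | insert y U hy ih =>
    intro T a d hv h
    have hp : 1 ≤ 2 ^ U.card := Nat.one_le_two_pow
    rw [card_insert_of_notMem hy, pow_succ]
    by_cases hT : y ∈ T
    · obtain ⟨d', he, hh⟩ := ih T a d hv fun a' ha' => by
        have := h a' ha'
        rwa [union_insert, insert_eq_of_mem (mem_union_left _ hT)] at this
      exact ⟨d', he.mono (by omega), hh⟩
    have key : ∀ (b : Bool) (d₁ : ℕ × (ℕ → Finset (V × Bool))), Valid F d₁ →
        (∀ E, Has d E → Has d₁ E) →
        ∃ d', Ext F d₁ d' (2 ^ U.card - 1) ∧ Has d' (insert (y, b) (cl T a)) := by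
      intro b d₁ hv₁ hm
      obtain ⟨d', he, hh⟩ := ih (insert y T) (Function.update a y (!b)) d₁ hv₁ fun a' ha' => by
        apply hm
        have := h a' fun z hz => by
          rw [ha' z (mem_insert_of_mem hz), Function.update_of_ne (by rintro rfl; exact hT hz)]
        rwa [union_insert, ← insert_union] at this
      refine ⟨d', he, hh.mono ?_⟩
      rintro ⟨z, c⟩ hz
      obtain ⟨hz1, hz2⟩ := mem_cl.mp hz
      rcases mem_insert.mp hz1 with rfl | hz3
      · simp [hz2]
      · rw [Function.update_of_ne (by rintro rfl; exact hT hz3)] at hz2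
        exact mem_insert_of_mem (mem_cl.mpr ⟨hz3, hz2⟩)
    obtain ⟨d1, he1, hh1⟩ := key true d hv fun _ h => h
    obtain ⟨d2, he2, hh2⟩ := key false d1 he1.1 he1.2.2
    obtain ⟨d3, he3, hh3⟩ := ext_resolve he2.1 (he2.2.2 _ hh1) hh2
    exact ⟨d3, ((he1.trans he2).trans he3).mono (by omega), hh3⟩

theorem exists_start (F : Finset (Finset (V × Bool))) :
    ∃ d, Valid F d ∧ d.1 ≤ F.card ∧ ∀ D ∈ F, Has d D := by
  obtain ⟨d, he, hh⟩ := ext_batch (F := F) (d := (0, fun _ => ∅)) F id 1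
    (fun i hi => absurd hi (Nat.not_lt_zero _))
    (fun d' hv _ D hD => ext_push hv D (Or.inl hD))
  exact ⟨d, he.1, by simpa using he.2.1, hh⟩

theorem refutation_of_has (hv : Valid F d) (h : Has d ∅) :
    ∃ s C, s + 1 ≤ d.1 ∧ IsRefutation F s C := by
  obtain ⟨s, hs, h⟩ := h
  refine ⟨s, fun i => d.2 i, hs, subset_empty.mp h, fun i => ?_⟩
  rcases hv i (by have := i.2; omega) with h1 | ⟨j, hj, k, hk, x, hx⟩
  · exact Or.inl h1
  · exact Or.inr ⟨⟨j, by have := i.2; omega⟩, hj, ⟨k, by have := i.2; omega⟩, hk, x, hx⟩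

end Pool.Agent.Lib.MP_71630c_lc
end

-- part Pool.Agent.Lib.MP_71630c_lc.Formula
section

/-! The hard formula: a pebbling contradiction on a thin layered graph, the value of a vertex
being the parity of the variables of its support. Size of the formula and a short refutation. -/

namespace Pool.Agent.Lib.MP_71630c_lc

open Finset

set_option linter.unusedSectionVars false

variable {V : Type} [DecidableEq V] [Fintype V]

/-- The parity of the true variables of `T`. -/
def par (T : Finset V) (a : V → Bool) : ZMod 2 := ∑ y ∈ T, if a y then 1 else 0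

theorem par_congr {T : Finset V} {a a' : V → Bool} (h : ∀ y ∈ T, a y = a' y) :
    par T a = par T a' :=
  sum_congr rfl fun y hy => by rw [h y hy]

theorem par_flip {T : Finset V} (a : V → Bool) {y : V} (hy : y ∈ T) :
    par T (Function.update a y (!a y)) = par T a + 1 := by
  unfold par
  rw [← add_sum_erase T _ hy, ← add_sum_erase T _ hy, Function.update_self,
    sum_congr rfl (g := fun z => if a z then (1 : ZMod 2) else 0)
      (fun z hz => by rw [Function.update_of_ne (ne_of_mem_erase hz)]), add_right_comm]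
  congr 1
  cases a y <;> decide

/-- The vertices. -/
def verts (h W : ℕ) : Finset (ℕ × ℕ) := range (h + 1) ×ˢ range W

/-- The children of a vertex. -/
def ch (h W : ℕ) (v : ℕ × ℕ) : Finset (ℕ × ℕ) :=
  if v.1 < h then {(v.1 + 1, v.2), (v.1 + 1, v.1 % W)} else ∅

theorem mem_verts {h W : ℕ} {v : ℕ × ℕ} : v ∈ verts h W ↔ v.1 ≤ h ∧ v.2 < W := by
  simp [verts]

theorem mem_ch {h W : ℕ} {v u : ℕ × ℕ} :
    u ∈ ch h W v ↔ v.1 < h ∧ u.1 = v.1 + 1 ∧ (u.2 = v.2 ∨ u.2 = v.1 % W) := by
  unfold ch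
  split_ifs with h1
  · simp only [mem_insert, mem_singleton, Prod.ext_iff, h1, true_and]
    tauto
  · simp [h1]

theorem ch_subset {h W : ℕ} {v : ℕ × ℕ} (hv : v ∈ verts h W) : ch h W v ⊆ verts h W := by
  intro u hu
  obtain ⟨h1, h2, h3⟩ := mem_ch.mp hu
  obtain ⟨-, h5⟩ := mem_verts.mp hv
  refine mem_verts.mpr ⟨by omega, ?_⟩
  rcases h3 with h3 | h3
  · omega
  · rw [h3]; exact Nat.mod_lt _ (by omega)

theorem card_ch (h W : ℕ) (v : ℕ × ℕ) : (ch h W v).card ≤ 2 := by
  unfold ch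
  split_ifs
  · exact card_le_two
  · simp

/-- The variables of the axioms of a vertex. -/
def supp (h W : ℕ) (G : ℕ × ℕ → Finset V) (v : ℕ × ℕ) : Finset V := G v ∪ (ch h W v).biUnion G

/-- The formula. -/
noncomputable def form (h W : ℕ) (G : ℕ × ℕ → Finset V) : Finset (Finset (V × Bool)) :=
  (verts h W).biUnion (fun v =>
    (univ.filter fun a : V → Bool => par (G v) a = 1 ∧ ∀ u ∈ ch h W v, par (G u) a ≠ 1).image
      (cl (supp h W G v))) ∪
  (univ.filter fun a : V → Bool => par (G (0, 0)) a ≠ 1).image (cl (G (0, 0)))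

theorem mem_form {h W : ℕ} {G : ℕ × ℕ → Finset V} {D : Finset (V × Bool)} :
    D ∈ form h W G ↔
      (∃ v ∈ verts h W, ∃ a : V → Bool, (par (G v) a = 1 ∧ ∀ u ∈ ch h W v, par (G u) a ≠ 1) ∧
        cl (supp h W G v) a = D) ∨
      ∃ a : V → Bool, par (G (0, 0)) a ≠ 1 ∧ cl (G (0, 0)) a = D := by
  simp [form]

theorem card_image_cl (S : Finset (V → Bool)) (T : Finset V) :
    (S.image (cl T)).card ≤ 2 ^ (2 * T.card) := by
  have : S.image (cl T) ⊆ (T ×ˢ (univ : Finset Bool)).powerset := by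
    intro D hD
    obtain ⟨a, -, rfl⟩ := mem_image.mp hD
    rw [mem_powerset]
    rintro ⟨y, b⟩ hy
    exact mem_product.mpr ⟨(mem_cl.mp hy).1, mem_univ _⟩
  refine (card_le_card this).trans ?_
  rw [card_powerset, card_product, card_univ, Fintype.card_bool, mul_comm]

theorem card_supp {h W L : ℕ} {G : ℕ × ℕ → Finset V} (hL : ∀ v, (G v).card ≤ L) (v : ℕ × ℕ) :
    (supp h W G v).card ≤ 3 * L := by
  refine (card_union_le _ _).trans ?_
  have h1 : ((ch h W v).biUnion G).card ≤ (ch h W v).card * L :=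
    card_biUnion_le_card_mul _ _ _ fun u _ => hL u
  have h2 := card_ch h W v
  have h3 := hL v
  nlinarith

theorem card_verts (h W : ℕ) : (verts h W).card = (h + 1) * W := by simp [verts]

theorem card_form {h W L : ℕ} {G : ℕ × ℕ → Finset V} (hL : ∀ v, (G v).card ≤ L) :
    (form h W G).card ≤ ((h + 1) * W + 1) * 2 ^ (6 * L) := by
  refine (card_union_le _ _).trans ?_
  rw [add_mul, one_mul, ← card_verts]
  apply Nat.add_le_add
  · apply card_biUnion_le_card_mul
    intro v _
    refine (card_image_cl _ _).trans (Nat.pow_le_pow_right (by norm_num) ?_)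
    have := card_supp (h := h) (W := W) hL v
    omega
  · refine (card_image_cl _ _).trans (Nat.pow_le_pow_right (by norm_num) ?_)
    have := hL (0, 0)
    omega

theorem derive_levels {h W L : ℕ} {G : ℕ × ℕ → Finset V} (hL : ∀ v, (G v).card ≤ L) (r : ℕ) :
    ∃ d, Valid (form h W G) d ∧ d.1 ≤ (form h W G).card + r * (W * (2 ^ (2 * L) * 2 ^ (3 * L))) ∧
      (∀ D ∈ form h W G, Has d D) ∧
      ∀ v ∈ verts h W, h + 1 ≤ v.1 + r → ∀ a, par (G v) a = 1 → Has d (cl (G v) a) := by
  induction r with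
  | zero =>
    obtain ⟨d, hv, hs, hh⟩ := exists_start (form h W G)
    refine ⟨d, hv, by omega, hh, fun v hv' h1 => ?_⟩
    have := (mem_verts.mp hv').1
    omega
  | succ r ih =>
    obtain ⟨d, hv, hs, hh, hl⟩ := ih
    rcases lt_or_ge h r with hr | hr
    · exact ⟨d, hv, by rw [add_mul, one_mul]; omega, hh, fun v hv' _ => hl v hv' (by omega)⟩
    set I : Finset (Finset (V × Bool)) := (range W).biUnion fun x =>
      (univ.filter fun a : V → Bool => par (G (h - r, x)) a = 1).image (cl (G (h - r, x))) with hI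
    have hcard : I.card ≤ W * 2 ^ (2 * L) := by
      rw [hI]
      refine (card_biUnion_le_card_mul _ _ (2 ^ (2 * L)) fun x _ => ?_).trans (by simp)
      refine (card_image_cl _ _).trans (Nat.pow_le_pow_right (by norm_num) ?_)
      have := hL (h - r, x)
      omega
    obtain ⟨d', he, hh'⟩ := ext_batch I id (2 ^ (3 * L)) hv (by
      intro d₁ hv₁ hm D hD
      obtain ⟨x, hx, hD⟩ := mem_biUnion.mp hD
      obtain ⟨a, ha, rfl⟩ := mem_image.mp hD
      have hvx : (h - r, x) ∈ verts h W := mem_verts.mpr ⟨by simp, mem_range.mp hx⟩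
      obtain ⟨d₂, he₂, hh₂⟩ := ext_branch (supp h W G (h - r, x)) (G (h - r, x)) a d₁ hv₁ (by
        intro a' ha'
        apply hm
        have hpa : par (G (h - r, x)) a' = 1 := by
          rw [par_congr ha']; exact (mem_filter.mp ha).2
        by_cases hc : ∀ u ∈ ch h W (h - r, x), par (G u) a' ≠ 1
        · exact (hh _ (mem_form.mpr (Or.inl ⟨_, hvx, a', ⟨hpa, hc⟩, rfl⟩))).mono
            (cl_mono subset_union_right _)
        · push Not at hc
          obtain ⟨u, hu, hu1⟩ := hc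
          have hu2 := (mem_ch.mp hu).2.1
          refine (hl u (ch_subset hvx hu) (by simp only at hu2; omega) a' hu1).mono (cl_mono ?_ _)
          exact (subset_biUnion_of_mem G hu).trans
            (subset_union_right.trans subset_union_right))
      refine ⟨d₂, he₂.mono ?_, hh₂⟩
      exact (Nat.sub_le _ _).trans (Nat.pow_le_pow_right (by norm_num) (card_supp hL _)))
    refine ⟨d', he.1, ?_, fun D hD => he.2.2 D (hh D hD), ?_⟩
    · have h1 := he.2.1
      have h2 : I.card * 2 ^ (3 * L) ≤ W * 2 ^ (2 * L) * 2 ^ (3 * L) := Nat.mul_le_mul_right _ hcard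
      rw [add_mul, one_mul]
      rw [mul_assoc] at h2
      omega
    · intro v hv' h1 a ha
      rcases Nat.lt_or_ge (v.1 + r) (h + 1) with h2 | h2
      · obtain ⟨h3, h4⟩ := mem_verts.mp hv'
        have h5 : v = (h - r, v.2) := Prod.ext (by simp only; omega) rfl
        apply hh'
        rw [hI]
        refine mem_biUnion.mpr ⟨v.2, mem_range.mpr h4, mem_image.mpr ⟨a, ?_, by rw [← h5]; rfl⟩⟩
        rw [← h5]
        exact mem_filter.mpr ⟨mem_univ _, ha⟩
      · exact he.2.2 _ (hl v hv' h2 a ha)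

theorem short_refutation {h W L : ℕ} (hW : 0 < W) {G : ℕ × ℕ → Finset V}
    (hL : ∀ v, (G v).card ≤ L) :
    ∃ s C, s + 1 ≤ (form h W G).card + (h + 1) * (W * (2 ^ (2 * L) * 2 ^ (3 * L))) + 2 ^ L ∧
      IsRefutation (form h W G) s C := by
  obtain ⟨d, hv, hs, hh, hl⟩ := derive_levels (h := h) (W := W) hL (h + 1)
  obtain ⟨d', he, hh'⟩ := ext_branch (G (0, 0)) ∅ (fun _ => true) d hv (by
    intro a _
    rw [empty_union]
    by_cases ha : par (G (0, 0)) a = 1
    · exact hl (0, 0) (mem_verts.mpr ⟨Nat.zero_le _, hW⟩) (by simp) a ha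
    · exact hh _ (mem_form.mpr (Or.inr ⟨a, ha, rfl⟩)))
  obtain ⟨s, C, h1, h2⟩ := refutation_of_has he.1 (by simpa [cl] using hh')
  refine ⟨s, C, ?_, h2⟩
  have h3 := he.2.1
  have h4 : 2 ^ (G (0, 0)).card ≤ 2 ^ L := Nat.pow_le_pow_right (by norm_num) (hL _)
  have h5 : 1 ≤ 2 ^ (G (0, 0)).card := Nat.one_le_two_pow
  omega

end Pool.Agent.Lib.MP_71630c_lc
end

-- part Pool.Agent.Lib.MP_71630c_lc.Adversary
section

/-! The adversary argument: in a refutation that is narrow along a restriction, some path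
nearly determines many vertices, in two successive phases. -/

namespace Pool.Agent.Lib.MP_71630c_lc

open Finset

set_option linter.unusedSectionVars false

variable {V : Type} [DecidableEq V] [Fintype V]

/-- The variables of a clause. -/
def vars (D : Finset (V × Bool)) : Finset V := D.image Prod.fst

/-- The assignment falsifies the clause. -/
def Fals (a : V → Bool) (D : Finset (V × Bool)) : Prop := ∀ p ∈ D, a p.1 ≠ p.2

theorem vars_cl (T : Finset V) (a : V → Bool) : vars (cl T a) = T := by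
  ext y
  simp only [vars, mem_image, Prod.exists, mem_cl]
  constructor
  · rintro ⟨z, b, ⟨h, -⟩, rfl⟩; exact h
  · intro h; exact ⟨y, _, ⟨h, rfl⟩, rfl⟩

theorem Fals.eq_on {a a₀ : V → Bool} {T : Finset V} (h : Fals a (cl T a₀)) :
    ∀ y ∈ T, a y = a₀ y := by
  intro y hy
  have := h (y, !a₀ y) (mem_cl.mpr ⟨hy, rfl⟩)
  revert this
  cases a y <;> cases a₀ y <;> simp

theorem Fals.congr {a a' : V → Bool} {D : Finset (V × Bool)} (h : Fals a D)
    (h' : ∀ y ∈ vars D, a' y = a y) : Fals a' D := fun p hp => by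
  rw [h' p.1 (mem_image_of_mem _ hp)]
  exact h p hp

/-- The lemma of Corradi. -/
theorem corradi {ι : Type} [DecidableEq ι] (T : Finset ι) (A : ι → Finset V) (Y : Finset V)
    (l L lam : ℕ) (hY : ∀ v ∈ T, A v ⊆ Y) (h1 : ∀ v ∈ T, l ≤ (A v).card)
    (h2 : ∀ v ∈ T, (A v).card ≤ L) (h3 : ∀ u ∈ T, ∀ v ∈ T, u ≠ v → (A u ∩ A v).card ≤ lam) :
    (T.card * l) ^ 2 ≤ Y.card * (T.card * L + T.card * T.card * lam) := by
  set dg : V → ℕ := fun y => ∑ v ∈ T, if y ∈ A v then 1 else 0 with hdg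
  have e1 : T.card * l ≤ ∑ y ∈ Y, dg y := by
    rw [hdg, sum_comm, ← smul_eq_mul, ← sum_const]
    apply sum_le_sum
    intro v hv
    rw [← card_filter, filter_mem_eq_inter, inter_eq_right.mpr (hY v hv)]
    exact h1 v hv
  have e2 : ∑ y ∈ Y, dg y ^ 2 ≤ T.card * L + T.card * T.card * lam := by
    have : ∀ y, dg y ^ 2 = ∑ u ∈ T, ∑ v ∈ T, if y ∈ A u ∩ A v then 1 else 0 := by
      intro y
      rw [sq, hdg, sum_mul_sum]
      refine sum_congr rfl fun u _ => sum_congr rfl fun v _ => ?_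
      by_cases a1 : y ∈ A u <;> by_cases a2 : y ∈ A v <;> simp [a1, a2]
    simp only [this]
    rw [sum_comm, mul_assoc, ← mul_add, ← smul_eq_mul, ← sum_const]
    apply sum_le_sum
    intro u hu
    rw [sum_comm]
    calc ∑ v ∈ T, ∑ y ∈ Y, (if y ∈ A u ∩ A v then 1 else 0)
        ≤ ∑ v ∈ T, ((if v = u then L else 0) + lam) := by
          apply sum_le_sum
          intro v hv
          rw [← card_filter, filter_mem_eq_inter]
          refine (card_le_card inter_subset_right).trans ?_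
          split_ifs with h
          · exact ((card_le_card inter_subset_left).trans (h2 u hu)).trans (Nat.le_add_right _ _)
          · rw [zero_add]; exact h3 u hu v hv (Ne.symm h)
      _ = L + T.card * lam := by
          rw [sum_add_distrib, sum_ite_eq' T u, if_pos hu, sum_const, smul_eq_mul]
  calc (T.card * l) ^ 2 ≤ (∑ y ∈ Y, dg y) ^ 2 := Nat.pow_le_pow_left e1 2
    _ ≤ Y.card * ∑ y ∈ Y, dg y ^ 2 := sq_sum_le_card_mul_sum_sq
    _ ≤ _ := Nat.mul_le_mul_left _ e2

theorem recolor {G : ℕ × ℕ → Finset V} (K : Finset V) (H : Finset (ℕ × ℕ)) (des : ℕ × ℕ → Prop)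
    (N : Finset (ℕ × ℕ)) (hN : N ⊆ H)
    (hp : ∀ v ∈ N, ∃ y ∈ G v, y ∉ K ∧ ∀ u ∈ H, u ≠ v → y ∉ G u) (a : V → Bool) :
    ∃ a' : V → Bool, (∀ y ∈ K, a' y = a y) ∧ (∀ v ∈ N, (par (G v) a' = 1 ↔ des v)) ∧
      ∀ v ∈ H, v ∉ N → par (G v) a' = par (G v) a := by
  induction N using Finset.induction_on with
  | empty => exact ⟨a, fun _ _ => rfl, by simp, fun _ _ _ => rfl⟩
  | insert v N hv ih =>
    obtain ⟨a₁, h1, h2, h3⟩ := ih ((subset_insert _ _).trans hN)
      fun u hu => hp u (mem_insert_of_mem hu)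
    by_cases hc : (par (G v) a₁ = 1 ↔ des v)
    · refine ⟨a₁, h1, ?_, fun u hu hu' => h3 u hu fun h => hu' (mem_insert_of_mem h)⟩
      intro u hu
      rcases mem_insert.mp hu with rfl | hu
      · exact hc
      · exact h2 u hu
    obtain ⟨y, hy1, hy2, hy3⟩ := hp v (mem_insert_self _ _)
    have hoth : ∀ u ∈ H, u ≠ v → par (G u) (Function.update a₁ y (!a₁ y)) = par (G u) a₁ := by
      intro u hu huv
      apply par_congr
      intro z hz
      rw [Function.update_of_ne]
      rintro rfl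
      exact hy3 u hu huv hz
    refine ⟨Function.update a₁ y (!a₁ y), ?_, ?_, ?_⟩
    · intro z hz
      rw [Function.update_of_ne (by rintro rfl; exact hy2 hz), h1 z hz]
    · intro u hu
      rcases mem_insert.mp hu with rfl | hu'
      · rw [par_flip a₁ hy1]
        have : ∀ t : ZMod 2, t + 1 = 1 ↔ ¬ t = 1 := by decide
        rw [this]
        tauto
      · rw [hoth u (hN hu) (by rintro rfl; exact hv hu')]
        exact h2 u hu'
    · intro u hu hu'
      rw [hoth u hu (by rintro rfl; exact hu' (mem_insert_self _ _))]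
      exact h3 u hu fun h => hu' (mem_insert_of_mem h)

/-- All the data of the adversary argument. -/
structure Setup (V : Type) [DecidableEq V] [Fintype V] where
  h : ℕ
  W : ℕ
  sg : ℕ
  lam : ℕ
  s : ℕ
  G : ℕ × ℕ → Finset V
  R : Finset V
  r : V → Bool
  C : Fin (s + 1) → Finset (V × Bool)
  w : Fin (s + 1) → Option (Fin (s + 1) × Fin (s + 1) × V)
  wit : IsWitness (form h W G) s C w
  last : C (Fin.last s) = ∅
  overlap : ∀ u ∈ verts h W, ∀ v ∈ verts h W, u ≠ v → ((G u \ R) ∩ (G v \ R)).card ≤ lam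
  hsg : lam * W < sg
  big : ∀ v ∈ verts h W, sg < (G v \ R).card
  narrow : ∀ (i : Fin (s + 1)) (a : V → Bool), Fals a (C i) → (∀ y ∈ R, a y = r y) →
    ((verts h W).filter fun v => ((G v \ R) \ vars (C i)).card ≤ sg).card < W

namespace Setup

variable (S : Setup V)

/-- The vertices nearly determined by the variables of `K`. -/
def near (K : Finset V) : Finset (ℕ × ℕ) :=
  (verts S.h S.W).filter fun v => ((S.G v \ S.R) \ K).card ≤ S.sg

theorem near_mono {K K' : Finset V} (h : K ⊆ K') : S.near K ⊆ S.near K' := by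
  intro v hv
  obtain ⟨h1, h2⟩ := mem_filter.mp hv
  exact mem_filter.mpr ⟨h1, (card_le_card (sdiff_subset_sdiff subset_rfl h)).trans h2⟩

/-- The invariant of the adversary. -/
def Inv (i : Fin (S.s + 1)) (l : ℕ) : Prop :=
  ∃ (a : V → Bool) (P : ℕ → ℕ), Fals a (S.C i) ∧ (∀ y ∈ S.R, a y = S.r y) ∧ P 0 = 0 ∧
    (∀ n, P (n + 1) = P n ∨ P (n + 1) = n % S.W) ∧
    ∀ v ∈ S.near (vars (S.C i)), (par (S.G v) a = 1 ↔ P v.1 = v.2) ∧ (P v.1 = v.2 → v.1 ≤ l)

/-- A partial path. -/
def Walk (i : Fin (S.s + 1)) (l : List V) (i' : Fin (S.s + 1)) : Prop :=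
  (∀ l', IsPath S.w i' l' → IsPath S.w i (l ++ l')) ∧ vars (S.C i') ⊆ vars (S.C i) ∪ l.toFinset

theorem Walk.refl (i : Fin (S.s + 1)) : S.Walk i [] i := ⟨fun _ h => h, by simp⟩

variable {S}

theorem Walk.trans {i j k : Fin (S.s + 1)} {l l' : List V} (h : S.Walk i l j)
    (h' : S.Walk j l' k) : S.Walk i (l ++ l') k := by
  refine ⟨fun m hm => by rw [List.append_assoc]; exact h.1 _ (h'.1 _ hm), ?_⟩
  rw [List.toFinset_append, ← union_assoc]
  exact h'.2.trans (union_subset_union_left h.2)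

theorem Inv.mono {i : Fin (S.s + 1)} {l l' : ℕ} (h : S.Inv i l) (hl : l ≤ l') : S.Inv i l' := by
  obtain ⟨a, P, h1, h2, h3, h4, h5⟩ := h
  exact ⟨a, P, h1, h2, h3, h4, fun v hv => ⟨(h5 v hv).1, fun h => ((h5 v hv).2 h).trans hl⟩⟩

theorem Inv.W_pos {i : Fin (S.s + 1)} {l : ℕ} (h : S.Inv i l) : 0 < S.W := by
  obtain ⟨a, P, h1, h2, -⟩ := h
  have := S.narrow i a h1 h2
  omega

theorem Inv.not_leaf {i : Fin (S.s + 1)} {l : ℕ} (h : S.Inv i l) (hl : l < S.h) :
    S.C i ∉ form S.h S.W S.G := by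
  have hW := h.W_pos
  obtain ⟨a, P, h1, h2, h3, h4, h5⟩ := h
  have hn : ∀ v ∈ verts S.h S.W, S.G v ⊆ vars (S.C i) → v ∈ S.near (vars (S.C i)) := by
    intro v hv hs
    refine mem_filter.mpr ⟨hv, ?_⟩
    rw [sdiff_eq_empty_iff_subset.mpr (sdiff_subset.trans hs), card_empty]
    exact Nat.zero_le _
  intro hF
  rcases mem_form.mp hF with ⟨v, hv, a₀, ⟨hb, hr⟩, he⟩ | ⟨a₀, hr, he⟩
  · rw [← he] at h1
    have heq := h1.eq_on
    have hvar : vars (S.C i) = supp S.h S.W S.G v := by rw [← he, vars_cl]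
    have hv1 : S.G v ⊆ supp S.h S.W S.G v := subset_union_left
    have hv2 := h5 v (hn v hv (hvar ▸ hv1))
    have hP : P v.1 = v.2 := hv2.1.mp (by rw [par_congr fun y hy => heq y (hv1 hy)]; exact hb)
    have hlev := hv2.2 hP
    have hu : (v.1 + 1, P (v.1 + 1)) ∈ ch S.h S.W v :=
      mem_ch.mpr ⟨by omega, rfl, by rw [← hP]; exact h4 _⟩
    have hu1 : S.G (v.1 + 1, P (v.1 + 1)) ⊆ supp S.h S.W S.G v :=
      (subset_biUnion_of_mem S.G hu).trans subset_union_right
    have hu2 := (h5 _ (hn _ (ch_subset hv hu) (hvar ▸ hu1))).1.mpr rfl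
    apply hr _ hu
    rw [← par_congr fun y hy => heq y (hu1 hy)]
    exact hu2
  · rw [← he] at h1
    have heq := h1.eq_on
    have hvar : vars (S.C i) = S.G (0, 0) := by rw [← he, vars_cl]
    have := (h5 (0, 0) (hn _ (mem_verts.mpr ⟨Nat.zero_le _, hW⟩) (hvar ▸ subset_rfl))).1.mpr h3
    apply hr
    rw [← par_congr heq]
    exact this

theorem Inv.move {i j : Fin (S.s + 1)} {l : ℕ} {x : V} {a : V → Bool} {P : ℕ → ℕ}
    (h2 : ∀ y ∈ S.R, a y = S.r y) (h3 : P 0 = 0)
    (h4 : ∀ n, P (n + 1) = P n ∨ P (n + 1) = n % S.W)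
    (h5 : ∀ v ∈ S.near (vars (S.C i)),
      (par (S.G v) a = 1 ↔ P v.1 = v.2) ∧ (P v.1 = v.2 → v.1 ≤ l))
    (hf : Fals a (S.C j)) (hv : vars (S.C j) ⊆ insert x (vars (S.C i))) :
    S.Inv j l ∨ (S.Inv j (l + S.W) ∧ ∃ v ∈ S.near (vars (S.C j)), l < v.1 ∧ v.1 ≤ l + S.W) := by
  set H := S.near (vars (S.C j)) with hH
  have hcard : H.card < S.W := S.narrow j a hf h2
  have hW : 0 < S.W := by omega
  obtain ⟨c, hc, hcH⟩ : ∃ c < S.W, ∀ v ∈ H, v.2 ≠ c := by
    by_contra hcon
    push Not at hcon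
    have : range S.W ⊆ H.image Prod.snd := fun c hc => by
      obtain ⟨v, hv, h⟩ := hcon c (mem_range.mp hc)
      exact mem_image.mpr ⟨v, hv, h⟩
    have h6 := (card_le_card this).trans card_image_le
    rw [card_range] at h6
    omega
  obtain ⟨i₀, hi1, hi2, hi3⟩ : ∃ i₀, l ≤ i₀ ∧ i₀ < l + S.W ∧ i₀ % S.W = c := by
    have e := Nat.div_add_mod l S.W
    have hm := Nat.mod_lt l hW
    rcases le_or_gt (l % S.W) c with h | h
    · exact ⟨S.W * (l / S.W) + c, by omega, by omega, by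
        rw [Nat.mul_add_mod, Nat.mod_eq_of_lt hc]⟩
    · refine ⟨S.W * (l / S.W + 1) + c, ?_, ?_, by rw [Nat.mul_add_mod, Nat.mod_eq_of_lt hc]⟩
      · rw [mul_add, mul_one]; omega
      · rw [mul_add, mul_one]; omega
  set P' : ℕ → ℕ := fun n => if n ≤ i₀ then P n else c with hP'
  have hP0 : P' 0 = 0 := by simp [hP', h3]
  have hPs : ∀ n, P' (n + 1) = P' n ∨ P' (n + 1) = n % S.W := by
    intro n
    simp only [hP']
    rcases lt_trichotomy n i₀ with h | h | h
    · rw [if_pos (by omega), if_pos h.le]; exact h4 n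
    · right; rw [if_neg (by omega), h, hi3]
    · left; rw [if_neg (by omega), if_neg (by omega)]
  have hlev : ∀ v ∈ H, P' v.1 = v.2 → v.1 ≤ i₀ := by
    intro v hv h
    by_contra hcon
    simp only [hP', if_neg hcon] at h
    exact hcH v hv h.symm
  obtain ⟨a', ha1, ha2, ha3⟩ := recolor (G := S.G) (S.R ∪ vars (S.C j)) H (fun v => P' v.1 = v.2)
    (H \ S.near (vars (S.C i))) sdiff_subset (by
      intro v hv'
      obtain ⟨hv1, hv2⟩ := mem_sdiff.mp hv'
      have hvv := (mem_filter.mp hv1).1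
      have c1 : S.sg < ((S.G v \ S.R) \ vars (S.C i)).card := by
        by_contra hcon
        exact hv2 (mem_filter.mpr ⟨hvv, not_lt.mp hcon⟩)
      have c2 : (S.G v \ S.R) \ vars (S.C i) ⊆ insert x ((S.G v \ S.R) \ vars (S.C j)) := by
        intro y hy
        obtain ⟨hy1, hy2⟩ := mem_sdiff.mp hy
        by_cases hyx : y = x
        · rw [hyx]; exact mem_insert_self _ _
        · refine mem_insert_of_mem (mem_sdiff.mpr ⟨hy1, fun h => ?_⟩)
          rcases mem_insert.mp (hv h) with h | h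
          · exact hyx h
          · exact hy2 h
      have c3 := (card_le_card c2).trans (card_insert_le _ _)
      have c4 : ((H.erase v).biUnion fun u => (S.G u \ S.R) ∩ (S.G v \ S.R)).card ≤
          (H.erase v).card * S.lam :=
        card_biUnion_le_card_mul _ _ _ fun u hu =>
          S.overlap u (mem_filter.mp (mem_of_mem_erase hu)).1 v hvv (ne_of_mem_erase hu)
      have c5 : (H.erase v).card * S.lam ≤ S.lam * S.W := by
        rw [mul_comm]
        exact Nat.mul_le_mul_left _ (card_erase_le.trans hcard.le)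
      have c6 := S.hsg
      obtain ⟨y, hy1, hy2⟩ := exists_mem_notMem_of_card_lt_card
        (s := (H.erase v).biUnion fun u => (S.G u \ S.R) ∩ (S.G v \ S.R))
        (t := (S.G v \ S.R) \ vars (S.C j)) (by omega)
      obtain ⟨hy3, hy4⟩ := mem_sdiff.mp hy1
      obtain ⟨hy5, hy6⟩ := mem_sdiff.mp hy3
      refine ⟨y, hy5, fun h => (mem_union.mp h).elim hy6 hy4, fun u hu huv hyu => hy2 ?_⟩
      exact mem_biUnion.mpr ⟨u, mem_erase.mpr ⟨huv, hu⟩,
        mem_inter.mpr ⟨mem_sdiff.mpr ⟨hyu, hy6⟩, hy3⟩⟩) a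
  have hcol : ∀ v ∈ H, (par (S.G v) a' = 1 ↔ P' v.1 = v.2) := by
    intro v hv1
    by_cases hv2 : v ∈ S.near (vars (S.C i))
    · rw [ha3 v hv1 fun h => (mem_sdiff.mp h).2 hv2, (h5 v hv2).1]
      by_cases hle : v.1 ≤ i₀
      · simp only [hP', if_pos hle]
      · constructor
        · intro h; have := (h5 v hv2).2 h; omega
        · intro h; exact absurd (hlev v hv1 h) hle
    · exact ha2 v (mem_sdiff.mpr ⟨hv1, hv2⟩)
  have hf' : Fals a' (S.C j) := hf.congr fun y hy => ha1 y (mem_union_right _ hy)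
  have hR' : ∀ y ∈ S.R, a' y = S.r y := fun y hy => by rw [ha1 y (mem_union_left _ hy), h2 y hy]
  by_cases hnew : ∃ v ∈ H, P' v.1 = v.2 ∧ l < v.1
  · obtain ⟨v, hv1, hv2, hv3⟩ := hnew
    refine Or.inr ⟨⟨a', P', hf', hR', hP0, hPs, fun u hu => ⟨hcol u hu, fun h => ?_⟩⟩,
      v, hv1, hv3, ?_⟩
    · have := hlev u hu h; omega
    · have := hlev v hv1 hv2; omega
  · push Not at hnew
    exact Or.inl ⟨a', P', hf', hR', hP0, hPs, fun u hu => ⟨hcol u hu, hnew u hu⟩⟩

theorem Inv.step {i : Fin (S.s + 1)} {l : ℕ} (h : S.Inv i l) (hl : l < S.h) :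
    ∃ j x, j < i ∧ S.Walk i [x] j ∧ (S.Inv j l ∨
      (S.Inv j (l + S.W) ∧ ∃ v ∈ S.near (vars (S.C j)), l < v.1 ∧ v.1 ≤ l + S.W)) := by
  have hnl := h.not_leaf hl
  obtain ⟨a, P, h1, h2, h3, h4, h5⟩ := h
  rcases hw : S.w i with _ | ⟨j, k, x⟩
  · exact absurd ((S.wit i).1 hw) hnl
  obtain ⟨hj, hk, A, B, -, -, hA, hB, hC⟩ := (S.wit i).2 j k x hw
  have key : ∀ (m : Fin (S.s + 1)) (b : Bool) (E : Finset (V × Bool)), a x ≠ b → E ⊆ S.C i →
      S.C m = insert (x, b) E → Fals a (S.C m) ∧ vars (S.C m) ⊆ insert x (vars (S.C i)) := by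
    intro m b E hb hE hm
    rw [hm]
    constructor
    · intro p hp
      rcases mem_insert.mp hp with rfl | hp
      · exact hb
      · exact h1 p (hE hp)
    · rw [vars, image_insert]
      exact insert_subset_insert _ (image_subset_image hE)
  have hins : insert x (vars (S.C i)) = vars (S.C i) ∪ [x].toFinset := by
    ext y; simp
  cases hax : a x
  · obtain ⟨k1, k2⟩ := key j true A (by simp [hax]) (hC ▸ subset_union_left) hA
    exact ⟨j, x, hj, ⟨fun l' hl' => IsPath.left i j k x l' hw hl', hins ▸ k2⟩,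
      Inv.move h2 h3 h4 h5 k1 k2⟩
  · obtain ⟨k1, k2⟩ := key k false B (by simp [hax]) (hC ▸ subset_union_right) hB
    exact ⟨k, x, hk, ⟨fun l' hl' => IsPath.right i j k x l' hw hl', hins ▸ k2⟩,
      Inv.move h2 h3 h4 h5 k1 k2⟩

theorem Inv.progress {l : ℕ} (hl : l < S.h) (i : Fin (S.s + 1)) (h : S.Inv i l) :
    ∃ j m, S.Walk i m j ∧ S.Inv j (l + S.W) ∧
      ∃ v ∈ S.near (vars (S.C i) ∪ m.toFinset), l < v.1 ∧ v.1 ≤ l + S.W := by
  induction i using WellFoundedLT.induction with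
  | ind i ih =>
    obtain ⟨j, x, hj, hw, h1 | ⟨h1, v, hv, h2⟩⟩ := h.step hl
    · obtain ⟨k, m, hw', h2, v, hv, h3⟩ := ih j hj h1
      refine ⟨k, [x] ++ m, hw.trans hw', h2, v, S.near_mono ?_ hv, h3⟩
      rw [List.toFinset_append, ← union_assoc]
      exact union_subset_union_left hw.2
    · exact ⟨j, [x], hw, h1, v, S.near_mono hw.2 hv, h2⟩

theorem Inv.phase (t : ℕ) {l : ℕ} (hl : l + t * S.W ≤ S.h) {i : Fin (S.s + 1)} (h : S.Inv i l) :
    ∃ j m, S.Walk i m j ∧ S.Inv j (l + t * S.W) ∧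
      ∃ T ⊆ S.near (vars (S.C i) ∪ m.toFinset), T.card = t ∧ ∀ v ∈ T, v.1 ≤ l + t * S.W := by
  have hW := h.W_pos
  induction t with
  | zero => exact ⟨i, [], Walk.refl S i, by simpa using h, ∅, by simp⟩
  | succ t ih =>
    rw [add_mul, one_mul, ← add_assoc] at hl ⊢
    obtain ⟨j, m, hw, h1, T, hT1, hT2, hT3⟩ := ih (by omega)
    obtain ⟨k, m', hw', h2, v, hv1, hv2, hv3⟩ := Inv.progress (by omega) j h1
    refine ⟨k, m ++ m', hw.trans hw', h2, insert v T, ?_, ?_, ?_⟩
    · rw [List.toFinset_append, ← union_assoc]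
      exact insert_subset (S.near_mono (union_subset_union_left hw.2) hv1)
        (hT1.trans (S.near_mono subset_union_left))
    · rw [card_insert_of_notMem (fun h => by have := hT3 v h; omega), hT2]
    · intro u hu
      rcases mem_insert.mp hu with rfl | hu
      · exact hv3
      · have := hT3 u hu; omega

theorem exists_path (i : Fin (S.s + 1)) : ∃ l, IsPath S.w i l := by
  induction i using WellFoundedLT.induction with
  | ind i ih =>
    rcases hw : S.w i with _ | ⟨j, k, x⟩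
    · exact ⟨[], IsPath.leaf i hw⟩
    · obtain ⟨l, hl⟩ := ih j ((S.wit i).2 j k x hw).1
      exact ⟨x :: l, IsPath.left i j k x l hw hl⟩

theorem inv_last : S.Inv (Fin.last S.s) 0 := by
  refine ⟨S.r, fun _ => 0, by rw [S.last]; intro p hp; simp at hp, fun _ _ => rfl, rfl,
    fun _ => Or.inl rfl, fun v hv => ?_⟩
  obtain ⟨h1, h2⟩ := mem_filter.mp hv
  rw [S.last, vars, image_empty, sdiff_empty] at h2
  exact absurd (S.big v h1) (not_lt.mpr h2)

/-- The outcome: a path and two families of `t` nearly determined vertices. -/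
theorem two_phases (t : ℕ) (ht : 2 * t * S.W ≤ S.h) :
    ∃ (m₁ m₂ m₃ : List V) (j : Fin (S.s + 1)) (a : V → Bool),
      IsPath S.w (Fin.last S.s) (m₁ ++ (m₂ ++ m₃)) ∧ Fals a (S.C j) ∧ (∀ y ∈ S.R, a y = S.r y) ∧
      (∃ T ⊆ S.near m₁.toFinset, T.card = t) ∧
      (∃ T ⊆ S.near (vars (S.C j) ∪ m₂.toFinset), T.card = t) := by
  have e : 2 * t * S.W = t * S.W + t * S.W := by ring
  obtain ⟨j, m₁, hw₁, h1, T₁, hT1, hT2, -⟩ := Inv.phase t (l := 0) (by omega) (inv_last (S := S))
  obtain ⟨k, m₂, hw₂, -, T₂, hU1, hU2, -⟩ := Inv.phase t (by omega) h1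
  obtain ⟨m₃, h3⟩ := exists_path k
  obtain ⟨a, -, ha1, ha2, -⟩ := h1
  refine ⟨m₁, m₂, m₃, j, a, hw₁.1 _ (hw₂.1 _ h3), ha1, ha2, ⟨T₁, ?_, hT2⟩, T₂, hU1, hU2⟩
  rwa [S.last, vars, image_empty, empty_union] at hT1

end Setup

end Pool.Agent.Lib.MP_71630c_lc
end

-- part Pool.Agent.Lib.MP_71630c_lc.Lines
section

/-! The supports: lines of the affine plane over a prime field, three variables per point;
the random restriction; the final lower bound. -/

namespace Pool.Agent.Lib.MP_71630c_lc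

open Finset

set_option linter.unusedSectionVars false

section Fib

variable {V : Type} [DecidableEq V] [Fintype V] {Pt : Type} [DecidableEq Pt] [Fintype Pt]
  (e : V ≃ Pt × Fin 3)

/-- The variables above a set of points. -/
def fib (X : Finset Pt) : Finset V := univ.filter fun y => (e y).1 ∈ X

/-- The restricted variables. -/
def rset (ρ : Pt → Fin 3 × Bool) : Finset V := univ.filter fun y => (e y).2 = (ρ (e y).1).1

theorem mem_fib {X : Finset Pt} {y : V} : y ∈ fib e X ↔ (e y).1 ∈ X := by simp [fib]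

theorem mem_rset {ρ : Pt → Fin 3 × Bool} {y : V} : y ∈ rset e ρ ↔ (e y).2 = (ρ (e y).1).1 := by
  simp [rset]

theorem card_fib (X : Finset Pt) : (fib e X).card = 3 * X.card := by
  have : (fib e X).map e.toEmbedding = X ×ˢ univ := by
    ext ⟨x, j⟩
    simp [mem_map_equiv, mem_fib]
  rw [← card_map e.toEmbedding, this, card_product, card_univ, Fintype.card_fin, mul_comm]

theorem card_fib_inter (X : Finset Pt) (ρ : Pt → Fin 3 × Bool) :
    (fib e X ∩ rset e ρ).card = X.card := by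
  symm
  apply card_bij (fun x _ => e.symm (x, (ρ x).1))
  · intro x hx
    simp [mem_fib, mem_rset, hx]
  · intro x _ y _ h
    simpa using (Prod.ext_iff.mp (e.symm.injective h)).1
  · intro y hy
    obtain ⟨h1, h2⟩ := mem_inter.mp hy
    refine ⟨(e y).1, (mem_fib e).mp h1, ?_⟩
    rw [← (mem_rset e).mp h2]
    simp

theorem card_fib_sdiff (X : Finset Pt) (ρ : Pt → Fin 3 × Bool) :
    (fib e X \ rset e ρ).card = 2 * X.card := by
  have := card_sdiff_add_card_inter (fib e X) (rset e ρ)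
  rw [card_fib, card_fib_inter] at this
  omega

theorem fib_inter (X Y : Finset Pt) : fib e X ∩ fib e Y = fib e (X ∩ Y) := by
  ext y; simp [mem_fib]

/-- The points touched by a clause. -/
def tch (D : Finset (V × Bool)) : Finset Pt := D.image fun p => (e p.1).1

theorem vars_subset_fib (D : Finset (V × Bool)) : vars D ⊆ fib e (tch e D) := by
  intro y hy
  obtain ⟨p, hp, rfl⟩ := mem_image.mp hy
  exact (mem_fib e).mpr (mem_image_of_mem _ hp)

theorem card_unsat (D : Finset (V × Bool)) (w : ℕ) (hw : w ≤ (tch e D).card) :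
    (univ.filter fun ρ : Pt → Fin 3 × Bool => ∀ p ∈ D, ρ (e p.1).1 ≠ ((e p.1).2, p.2)).card ≤
      5 ^ w * 6 ^ (Fintype.card Pt - w) := by
  obtain ⟨X, hX, rfl⟩ := exists_subset_card_eq hw
  have hch : ∀ x : Pt, ∃ o : Fin 3 × Bool, x ∈ X → ∃ p ∈ D, (e p.1).1 = x ∧ ((e p.1).2, p.2) = o := by
    intro x
    by_cases hx : x ∈ X
    · obtain ⟨p, hp, h⟩ := mem_image.mp (hX hx)
      exact ⟨_, fun _ => ⟨p, hp, h, rfl⟩⟩
    · exact ⟨(0, true), fun h => absurd h hx⟩
  choose o ho using hch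
  have hsub : (univ.filter fun ρ : Pt → Fin 3 × Bool =>
      ∀ p ∈ D, ρ (e p.1).1 ≠ ((e p.1).2, p.2)) ⊆
      Fintype.piFinset fun x => if x ∈ X then univ.erase (o x) else univ := by
    intro ρ hρ
    rw [Fintype.mem_piFinset]
    intro x
    split_ifs with hx
    · obtain ⟨p, hp, h1, h2⟩ := ho x hx
      refine mem_erase.mpr ⟨?_, mem_univ _⟩
      rw [← h2, ← h1]
      exact (mem_filter.mp hρ).2 p hp
    · exact mem_univ _
  refine (card_le_card hsub).trans (le_of_eq ?_)
  rw [Fintype.card_piFinset]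
  have : ∀ x, (if x ∈ X then univ.erase (o x) else (univ : Finset (Fin 3 × Bool))).card =
      if x ∈ X then 5 else 6 := by
    intro x
    split_ifs <;> simp
  simp only [this]
  rw [prod_ite, prod_const, prod_const, filter_mem_eq_inter, univ_inter, filter_not,
    filter_mem_eq_inter, univ_inter, card_univ_sdiff]

theorem exists_restriction {s : ℕ} (C : Fin (s + 1) → Finset (V × Bool)) (w : ℕ)
    (hs : (s + 1) * 5 ^ w < 6 ^ w) :
    ∃ ρ : Pt → Fin 3 × Bool, ∀ i, (∀ p ∈ C i, ρ (e p.1).1 ≠ ((e p.1).2, p.2)) →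
      (tch e (C i)).card < w := by
  by_contra hcon
  push Not at hcon
  have hw : w ≤ Fintype.card Pt := by
    obtain ⟨i, -, hi⟩ := hcon fun _ => (0, true)
    exact hi.trans (card_le_univ _)
  have hsub : (univ : Finset (Pt → Fin 3 × Bool)) ⊆
      (univ.filter fun i => w ≤ (tch e (C i)).card).biUnion fun i =>
        univ.filter fun ρ => ∀ p ∈ C i, ρ (e p.1).1 ≠ ((e p.1).2, p.2) := by
    intro ρ _
    obtain ⟨i, h1, h2⟩ := hcon ρ
    exact mem_biUnion.mpr ⟨i, mem_filter.mpr ⟨mem_univ _, h2⟩, mem_filter.mpr ⟨mem_univ _, h1⟩⟩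
  have h1 := (card_le_card hsub).trans (card_biUnion_le_card_mul _ _ _
    fun i hi => card_unsat e (C i) w (mem_filter.mp hi).2)
  have h2 : (univ.filter fun i => w ≤ (tch e (C i)).card).card ≤ s + 1 :=
    (card_le_univ _).trans (by simp)
  have h3 : (univ : Finset (Pt → Fin 3 × Bool)).card = 6 ^ w * 6 ^ (Fintype.card Pt - w) := by
    rw [← pow_add, Nat.add_sub_cancel' hw]; simp
  have h4 : 0 < 6 ^ (Fintype.card Pt - w) := by positivity
  have h5 := h1.trans (Nat.mul_le_mul_right _ h2)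
  rw [h3, ← mul_assoc] at h5
  exact absurd (Nat.le_of_mul_le_mul_right h5 h4) (not_le.mpr hs)

end Fib

section Line

variable (p : ℕ) [Fact p.Prime]

/-- The line with number `n`. -/
def line (n : ℕ) : Finset (ZMod p × ZMod p) :=
  univ.image fun x => (x, ((n / p : ℕ) : ZMod p) * x + (n : ZMod p))

theorem card_line (n : ℕ) : (line p n).card = p := by
  rw [line, card_image_of_injective _ fun x y h => (Prod.ext_iff.mp h).1, card_univ, ZMod.card]

theorem mem_line {n : ℕ} {z : ZMod p × ZMod p} :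
    z ∈ line p n ↔ z.2 = ((n / p : ℕ) : ZMod p) * z.1 + (n : ZMod p) := by
  simp only [line, mem_image, mem_univ, true_and]
  constructor
  · rintro ⟨x, rfl⟩; rfl
  · intro h; exact ⟨z.1, Prod.ext rfl h.symm⟩

theorem card_line_inter {n n' : ℕ} (hn : n < p * p) (hn' : n' < p * p) (h : n ≠ n') :
    (line p n ∩ line p n').card ≤ 1 := by
  rw [card_le_one]
  intro z hz z' hz'
  obtain ⟨h1, h2⟩ := mem_inter.mp hz
  obtain ⟨h3, h4⟩ := mem_inter.mp hz'
  rw [mem_line] at h1 h2 h3 h4
  by_cases hx : z.1 = z'.1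
  · exact Prod.ext hx (by rw [h1, h3, hx])
  exfalso
  apply h
  have e1 : (((n / p : ℕ) : ZMod p) - ((n' / p : ℕ) : ZMod p)) * (z.1 - z'.1) = 0 := by
    linear_combination h2 - h1 + h3 - h4
  have e2 : ((n / p : ℕ) : ZMod p) = ((n' / p : ℕ) : ZMod p) :=
    sub_eq_zero.mp ((mul_eq_zero.mp e1).resolve_right (sub_ne_zero.mpr hx))
  have e3 : (n : ZMod p) = (n' : ZMod p) := by
    rw [e2] at h1
    linear_combination h2 - h1
  rw [ZMod.natCast_eq_natCast_iff'] at e2 e3
  rw [Nat.mod_eq_of_lt (Nat.div_lt_of_lt_mul hn), Nat.mod_eq_of_lt (Nat.div_lt_of_lt_mul hn')] at e2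
  rw [← Nat.div_add_mod n p, ← Nat.div_add_mod n' p, e2, e3]

end Line

section Final

variable {V : Type} [DecidableEq V] [Fintype V] (p : ℕ) [Fact p.Prime]
  (e : V ≃ (ZMod p × ZMod p) × Fin 3)

/-- The support of a vertex. -/
def gam (W : ℕ) (v : ℕ × ℕ) : Finset V := fib e (line p (v.1 * W + v.2))

theorem card_gam (W : ℕ) (v : ℕ × ℕ) : (gam p e W v).card = 3 * p := by
  rw [gam, card_fib, card_line]

theorem line_overlap {h W : ℕ} (hh : (h + 1) * W ≤ p * p) {u v : ℕ × ℕ} (hu : u ∈ verts h W)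
    (hv : v ∈ verts h W) (huv : u ≠ v) :
    (line p (u.1 * W + u.2) ∩ line p (v.1 * W + v.2)).card ≤ 1 := by
  obtain ⟨h1, h2⟩ := mem_verts.mp hu
  obtain ⟨h3, h4⟩ := mem_verts.mp hv
  apply card_line_inter
  · have : u.1 * W ≤ h * W := Nat.mul_le_mul_right _ h1
    rw [add_mul, one_mul] at hh; omega
  · have : v.1 * W ≤ h * W := Nat.mul_le_mul_right _ h3
    rw [add_mul, one_mul] at hh; omega
  · intro h5
    apply huv
    have a1 := congrArg (· % W) h5
    simp only [Nat.mul_add_mod_of_lt h2, Nat.mul_add_mod_of_lt h4] at a1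
    rw [a1] at h5
    exact Prod.ext (Nat.eq_of_mul_eq_mul_right (by omega) (Nat.add_right_cancel h5)) a1

theorem all_occur {h W : ℕ} (hW : 0 < W) (hh : (h + 1) * W ≤ p * p) (hp : p ≤ h) (hp3 : 3 ≤ p)
    (y : V) : ∃ D ∈ form h W (gam p e W), ∃ b, (y, b) ∈ D := by
  set n := ((e y).1.2).val with hn
  have hnp : n < p := ZMod.val_lt _
  set v : ℕ × ℕ := (n / W, n % W) with hv
  have hvv : v ∈ verts h W :=
    mem_verts.mpr ⟨(Nat.div_le_self _ _).trans (by omega), Nat.mod_lt _ hW⟩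
  have hy : y ∈ gam p e W v := by
    rw [gam, mem_fib, mem_line]
    simp only [hv, Nat.div_add_mod' n W, Nat.div_eq_of_lt hnp]
    simp [hn]
  have hnot : v ∉ ch h W v := fun h => by have := (mem_ch.mp h).2.1; omega
  obtain ⟨a, -, h2, h3⟩ := recolor (G := gam p e W) ∅ (insert v (ch h W v)) (fun _ => True) {v}
    (by simp) (by
      intro u hu
      rw [mem_singleton.mp hu]
      have c4 : ((ch h W v).biUnion fun u => gam p e W u ∩ gam p e W v).card ≤
          (ch h W v).card * 3 := by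
        apply card_biUnion_le_card_mul
        intro u hu
        rw [gam, gam, fib_inter, card_fib]
        have := line_overlap p hh (ch_subset hvv hu) hvv (by rintro rfl; exact hnot hu)
        omega
      have c5 := card_ch h W v
      obtain ⟨z, hz1, hz2⟩ := exists_mem_notMem_of_card_lt_card
        (s := (ch h W v).biUnion fun u => gam p e W u ∩ gam p e W v) (t := gam p e W v)
        (by rw [card_gam]; omega)
      refine ⟨z, hz1, notMem_empty _, fun u hu huv hzu => hz2 ?_⟩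
      exact mem_biUnion.mpr ⟨u, (mem_insert.mp hu).resolve_left huv, mem_inter.mpr ⟨hzu, hz1⟩⟩)
    (fun _ => false)
  refine ⟨cl (supp h W (gam p e W) v) a, mem_form.mpr (Or.inl ⟨v, hvv, a, ⟨?_, ?_⟩, rfl⟩), !a y,
    mem_cl.mpr ⟨mem_union_left _ hy, rfl⟩⟩
  · exact (h2 v (mem_singleton_self _)).mpr trivial
  · intro u hu
    rw [h3 u (mem_insert_of_mem hu) (fun h => hnot (by rwa [mem_singleton.mp h] at hu))]
    simp [par]

theorem near_bound {h W sg l : ℕ} (hh : (h + 1) * W ≤ p * p) (hl : l + sg = 2 * p)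
    (ρ : ZMod p × ZMod p → Fin 3 × Bool) (K : Finset V) (T : Finset (ℕ × ℕ))
    (hT : T ⊆ (verts h W).filter fun v => ((gam p e W v \ rset e ρ) \ K).card ≤ sg) :
    (T.card * l) ^ 2 ≤ (K \ rset e ρ).card * (T.card * (2 * p) + T.card * T.card * 2) := by
  have hc : ∀ v, (gam p e W v \ rset e ρ).card = 2 * p := fun v => by
    rw [gam, card_fib_sdiff, card_line]
  apply corradi T (fun v => (gam p e W v \ rset e ρ) ∩ K)
  · intro v _ y hy
    obtain ⟨h1, h2⟩ := mem_inter.mp hy
    exact mem_sdiff.mpr ⟨h2, (mem_sdiff.mp h1).2⟩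
  · intro v hv
    have h1 := (mem_filter.mp (hT hv)).2
    have h2 := card_sdiff_add_card_inter (gam p e W v \ rset e ρ) K
    rw [hc] at h2
    omega
  · intro v _
    exact (card_le_card inter_subset_left).trans (hc v).le
  · intro u hu v hv huv
    have h1 := line_overlap p hh (mem_filter.mp (hT hu)).1 (mem_filter.mp (hT hv)).1 huv
    have h2 : (gam p e W u \ rset e ρ) ∩ K ∩ ((gam p e W v \ rset e ρ) ∩ K) ⊆
        fib e (line p (u.1 * W + u.2) ∩ line p (v.1 * W + v.2)) \ rset e ρ := by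
      intro y hy
      simp only [mem_inter, mem_sdiff, gam, mem_fib] at hy ⊢
      tauto
    refine (card_le_card h2).trans ?_
    rw [card_fib_sdiff]
    omega

theorem lower_bound (K : ℕ) (hK : 1 ≤ K) (hp : 500 * K ^ 2 ≤ p) {s : ℕ}
    (C : Fin (s + 1) → Finset (V × Bool))
    (hC : IsHalfRegular (form (120 * p * K) (4 * K) (gam p e (4 * K))) s C) :
    6 ^ (K * p) ≤ (s + 1) * 5 ^ (K * p) := by
  by_contra hcon
  obtain ⟨ρ, hρ⟩ := exists_restriction e C (K * p) (not_le.mp hcon)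
  obtain ⟨⟨hlast, -⟩, w, hw, hreg⟩ := hC
  have hKp : 500 * K ≤ p := by nlinarith
  have hh : (120 * p * K + 1) * (4 * K) ≤ p * p := by nlinarith
  obtain ⟨l, hl⟩ : ∃ l, l + (8 * K + 1) = 2 * p := ⟨2 * p - (8 * K + 1), by omega⟩
  have hvars : ∀ (i : Fin (s + 1)) (a : V → Bool), Fals a (C i) →
      (∀ y ∈ rset e ρ, a y = (ρ (e y).1).2) → (vars (C i)).card ≤ 3 * (K * p) := by
    intro i a h1 h2
    have h3 := hρ i fun q hq h => h1 q hq (by
      rw [h2 q.1 ((mem_rset e).mpr (by rw [h])), h])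
    refine (card_le_card (vars_subset_fib e _)).trans ?_
    rw [card_fib]
    omega
  let S : Setup V :=
    { h := 120 * p * K, W := 4 * K, sg := 8 * K + 1, lam := 2, s := s, G := gam p e (4 * K),
      R := rset e ρ, r := fun y => (ρ (e y).1).2, C := C, w := w, wit := hw, last := hlast
      overlap := by
        intro u hu v hv huv
        have h1 := line_overlap p hh hu hv huv
        have h2 : (gam p e (4 * K) u \ rset e ρ) ∩ (gam p e (4 * K) v \ rset e ρ) =
            fib e (line p (u.1 * (4 * K) + u.2) ∩ line p (v.1 * (4 * K) + v.2)) \ rset e ρ := by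
          ext y
          simp only [mem_inter, mem_sdiff, gam, mem_fib]
          tauto
        rw [h2, card_fib_sdiff]
        omega
      hsg := by omega
      big := by
        intro v _
        rw [gam, card_fib_sdiff, card_line]
        omega
      narrow := by
        intro i a h1 h2
        by_contra h3
        obtain ⟨T, hT1, hT2⟩ := exists_subset_card_eq (not_lt.mp h3)
        have h4 := near_bound p e hh hl ρ _ T hT1
        have h5 := (card_le_card (sdiff_subset (t := rset e ρ))).trans (hvars i a h1 h2)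
        have h6 := h4.trans (Nat.mul_le_mul_right _ h5)
        rw [hT2] at h6
        have h7 : (K * K) * (16 * l ^ 2) ≤ (K * K) * (24 * p * p + 96 * K * p) := by
          calc (K * K) * (16 * l ^ 2) = (4 * K * l) ^ 2 := by ring
            _ ≤ _ := h6
            _ = _ := by ring
        have h8 := Nat.le_of_mul_le_mul_left h7 (by positivity)
        have h9 : 3 * p ≤ 2 * l := by omega
        nlinarith }
  obtain ⟨m₁, m₂, m₃, j, a, hpath, ha1, ha2, ⟨T₁, hT1, hT2⟩, T₂, hU1, hU2⟩ :=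
    Setup.two_phases (S := S) (15 * p) (by show 2 * (15 * p) * (4 * K) ≤ 120 * p * K; nlinarith)
  have b1 := near_bound p e hh hl ρ _ T₁ hT1
  have b2 := near_bound p e hh hl ρ _ T₂ hU1
  rw [hT2] at b1
  rw [hU2] at b2
  have hp0 : 0 < p := by omega
  have red : ∀ Y : ℕ, (15 * p * l) ^ 2 ≤ Y * (15 * p * (2 * p) + 15 * p * (15 * p) * 2) →
      15 * l ^ 2 ≤ 32 * Y := by
    intro Y hY
    have : (15 * p * p) * (15 * l ^ 2) ≤ (15 * p * p) * (32 * Y) := by
      calc (15 * p * p) * (15 * l ^ 2) = (15 * p * l) ^ 2 := by ring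
        _ ≤ _ := hY
        _ = _ := by ring
    exact Nat.le_of_mul_le_mul_left this (by positivity)
  have c1 := red _ b1
  have c2 := red _ b2
  have c3 : ((vars (C j) ∪ m₂.toFinset) \ rset e ρ).card ≤
      3 * (K * p) + (m₂.toFinset \ rset e ρ).card := by
    rw [union_sdiff_distrib]
    refine (card_union_le _ _).trans (Nat.add_le_add_right ?_ _)
    exact (card_le_card sdiff_subset).trans (hvars j a ha1 ha2)
  have c4 := card_union_add_card_inter (m₁.toFinset \ rset e ρ) (m₂.toFinset \ rset e ρ)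
  have c5 : ((m₁.toFinset \ rset e ρ) ∪ (m₂.toFinset \ rset e ρ)).card ≤ 2 * (p * p) := by
    have : (m₁.toFinset \ rset e ρ) ∪ (m₂.toFinset \ rset e ρ) ⊆ fib e univ \ rset e ρ := by
      rw [← union_sdiff_distrib]
      exact sdiff_subset_sdiff (fun y _ => (mem_fib e).mpr (mem_univ _)) subset_rfl
    refine (card_le_card this).trans ?_
    rw [card_fib_sdiff, card_univ, Fintype.card_prod, ZMod.card]
  have c6 : ((m₁.toFinset \ rset e ρ) ∩ (m₂.toFinset \ rset e ρ)).card ≤
      (univ.filter fun x : V => 2 ≤ (m₁ ++ (m₂ ++ m₃)).count x).card := by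
    apply card_le_card
    intro x hx
    obtain ⟨h1, h2⟩ := mem_inter.mp hx
    have h3 := List.count_pos_iff.mpr (List.mem_toFinset.mp (mem_sdiff.mp h1).1)
    have h4 := List.count_pos_iff.mpr (List.mem_toFinset.mp (mem_sdiff.mp h2).1)
    refine mem_filter.mpr ⟨mem_univ _, ?_⟩
    rw [List.count_append, List.count_append]
    omega
  have c7 := hreg _ hpath
  have c8 : Fintype.card V = 3 * (p * p) := by
    rw [Fintype.card_congr e, Fintype.card_prod, Fintype.card_prod, ZMod.card, Fintype.card_fin,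
      mul_comm]
  change 15 * l ^ 2 ≤ 32 * ((vars (C j) ∪ m₂.toFinset) \ rset e ρ).card at c2
  have c9 : 30 * l ^ 2 ≤ 112 * (p * p) + 96 * (K * p) := by omega
  have c10 : 199 * p ≤ 100 * l + 1600 * K := by omega
  have c11 : 195 * p ≤ 100 * l := by omega
  nlinarith

end Final

end Pool.Agent.Lib.MP_71630c_lc
end
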